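import Mathlib

/-! # MP_09fff0_gt: conformal dimensions of fractal percolation, definitions

helper25 -/

open MeasureTheory Set Filter Topology
open scoped ENNReal NNReal unitInterval

namespace MP09fff0

/-! ### Quasisymmetric maps and conformal dimensions -/

/-- The homeomorphism `f` is quasisymmetric. -/
def QS {X Y : Type} [MetricSpace X] [MetricSpace Y] (f : X ≃ₜ Y) : Prop :=
  ∃ η : ℝ≥0 ≃ₜ ℝ≥0, ∀ (x a b : X) (t : ℝ≥0),
    dist x a ≤ t * dist x b → dist (f x) (f a) ≤ η t * dist (f x) (f b)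

/-- `X` and `Y` are quasisymmetrically equivalent. -/
def QSEquiv (X Y : Type) [MetricSpace X] [MetricSpace Y] : Prop := ∃ f : X ≃ₜ Y, QS f

/-- The least number of closed balls of radius `r` which cover `Y`. -/
noncomputable def covN (Y : Type) [MetricSpace Y] (r : ℝ) : ℕ :=
  sInf {m : ℕ | ∃ t : Finset Y, t.card = m ∧ ∀ y : Y, ∃ c ∈ t, dist y c ≤ r}

/-- The upper box-counting dimension of `Y`. -/
noncomputable def boxDim (Y : Type) [MetricSpace Y] : EReal :=
  limsup (fun r : ℝ => ((Real.log (covN Y r) / Real.log (1 / r) : ℝ) : EReal)) (𝓝[>] 0)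

/-- The conformal Hausdorff dimension of `X`. -/
noncomputable def confDimH (X : Type) [MetricSpace X] : ℝ≥0∞ :=
  ⨅ (Y : Type) (_ : MetricSpace Y) (_ : QSEquiv X Y), dimH (univ : Set Y)

/-- The conformal upper box dimension of `X`. -/
noncomputable def confBoxDim (X : Type) [MetricSpace X] : EReal :=
  ⨅ (Y : Type) (_ : MetricSpace Y) (_ : QSEquiv X Y), boxDim Y

/-! ### Fractal percolation -/

/-- `(k, v)` stands for the cube of side `n ^ (-k)` with lowest corner `v * n ^ (-k)`. -/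
abbrev Idx (d : ℕ) := ℕ × (Fin d → ℤ)

/-- The sample space: one choice (`true`: the cube is kept) for each cube. -/
abbrev Om (d : ℕ) := Idx d → Bool

/-- All choices are independent, each is `true` with probability `p`. -/
noncomputable def perc (d : ℕ) (p : I) : Measure (Om d) :=
  Measure.infinitePi (fun _ : Idx d => ProbabilityTheory.bernoulliMeasure true false p)

/-- The cubes of side `n ^ (-k)` kept at step `k`: at step `0` only the unit cube; the cube
`(k + 1, v)` is kept if its choice is `true` and the cube of side `n ^ (-k)` containing it is kept. -/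
def kept {d : ℕ} (n : ℕ) (ω : Om d) : ℕ → (Fin d → ℤ) → Prop
  | 0, v => v = 0
  | k + 1, v => ω (k + 1, v) = true ∧ kept n ω k (fun i => v i / (n : ℤ))

/-- The closed cube of side `n ^ (-k)` with lowest corner `v * n ^ (-k)`. -/
def cube {d : ℕ} (n k : ℕ) (v : Fin d → ℤ) : Set (EuclideanSpace ℝ (Fin d)) :=
  {x | ∀ i, (v i : ℝ) / (n : ℝ) ^ k ≤ x i ∧ x i ≤ ((v i : ℝ) + 1) / (n : ℝ) ^ k}

/-- The union of the cubes kept at step `k`. -/
def Fk {d : ℕ} (n : ℕ) (ω : Om d) (k : ℕ) : Set (EuclideanSpace ℝ (Fin d)) :=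
  {x | ∃ v, kept n ω k v ∧ x ∈ cube n k v}

/-- The sample of Mandelbrot percolation. -/
def F {d : ℕ} (n : ℕ) (ω : Om d) : Set (EuclideanSpace ℝ (Fin d)) := ⋂ k, Fk n ω k

/-! ### auxiliary objects of the proof -/

/-- Chains with steps of size at most `s`. -/
abbrev Chn {X : Type} [MetricSpace X] (s : ℝ) : X → X → Prop :=
  Relation.ReflTransGen (fun a b => dist a b ≤ s)

/-- The points from which a chain with steps `N ^ (-(k+1))` gets to distance `N ^ (-k) / 2`. -/
def Bad (X : Type) [MetricSpace X] (N k : ℕ) : Set X :=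
  {x | ∃ y, Chn (1 / (N : ℝ) ^ (k + 1)) x y ∧ 1 / (2 * (N : ℝ) ^ k) ≤ dist x y}

/-- Weights. -/
structure Wt (X : Type) [MetricSpace X] (N : ℕ) (δ : ℝ) where
  φ : ℕ → X → ℝ
  lo : ∀ k x, δ ≤ φ k x
  hi : ∀ k x, φ k x ≤ 1 / 2
  lip : ∀ k x y, φ k y ≤ Real.exp ((N : ℝ) ^ (k + 1) * dist x y / 2) * φ k x
  bad : ∀ k x, x ∈ Bad X N k → φ k x = 1 / 2

/-- The product of the first `k` weights. -/
noncomputable def Wt.pr {X : Type} [MetricSpace X] {N : ℕ} {δ : ℝ} (W : Wt X N δ) (k : ℕ) (x : X) :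
    ℝ := ∏ j ∈ Finset.range k, W.φ j x

/-- Retention of a cube in the steps `1, ..., k`, anywhere in the lattice. -/
def ret {d : ℕ} (n : ℕ) (ω : Om d) : ℕ → (Fin d → ℤ) → Prop
  | 0, _ => True
  | k + 1, v => ω (k + 1, v) = true ∧ ret n ω k (fun i => v i / (n : ℤ))

/-- The configuration seen from the cube `(m, R)`. -/
def shf {d : ℕ} (n m : ℕ) (R : Fin d → ℤ) (ω : Om d) : Om d :=
  fun kv => ω (m + kv.1, fun i => (n : ℤ) ^ kv.1 * R i + kv.2 i)

/-- The cube `(K, v)` is in the block of `3 ^ d` unit cubes around the unit cube. -/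
def blk {d : ℕ} (n K : ℕ) (v : Fin d → ℤ) : Prop :=
  ∀ i, -(n : ℤ) ^ K ≤ v i ∧ v i < 2 * (n : ℤ) ^ K

/-- There is a long chain of retained cubes of side `n ^ (-K)` which starts in the unit cube. -/
def Ev {d : ℕ} (n K : ℕ) (ω : Om d) : Prop :=
  ∃ v w : Fin d → ℤ, (∀ i, 0 ≤ v i ∧ v i < (n : ℤ) ^ K) ∧ ret n ω K v ∧
    Relation.ReflTransGen (fun a b => blk n K b ∧ ret n ω K b ∧ ∀ i, |a i - b i| ≤ 2) v w ∧
    ∃ i, (n : ℤ) ^ K ≤ 2 * |v i - w i| + 2

/-- The percolation set as a subset of `Fin d → ℝ` with the supremum metric. -/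
def FS {d : ℕ} (n : ℕ) (ω : Om d) : Set (Fin d → ℝ) :=
  {x | ∀ k, ∃ v, kept n ω k v ∧
    ∀ i, (v i : ℝ) / (n : ℝ) ^ k ≤ x i ∧ x i ≤ ((v i : ℝ) + 1) / (n : ℝ) ^ k}

end MP09fff0
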